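import Pool.Agent.W851.BE.Stm

/-!
Project BE (helper851), part UP: upward germs along orbits off the tree of the poles.
-/

set_option autoImplicit false

open Polynomial Topology Filter MeasureTheory

namespace Pool.Agent.W405.BE.Up

open Pool.Agent.W95.BK Pool.Agent.W851.BE

universe u

theorem main (hF : S_FUNC.{u}) (hC : S_CHAIN.{u}) (hZ : S_ZT.{u}) (hD : S_DEG1.{u})
    (hO : S_OFF.{u}) : S_UP.{u} := by
  classical
  intro K _ _ _ R n a r hr
  obtain ⟨z1, -, z3, -⟩ := hZ K
  obtain ⟨f1, f2⟩ := hF K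
  have hgr : zt a r = ((gauss a r hr : BA K) : P1B K) := zt_pos a hr
  have hHK : HK (gauss a r hr) := z3 a r hr
  induction n with
  | zero =>
    intro _
    refine ⟨a, r, 1, hr, one_pos, ?_⟩
    intro t ht _
    have h1 : localDeg (R.iter 0) (zt a r) = 1 := by
      rw [hgr]
      exact (hD K (RMap.id K) (gauss a r hr) hHK).2 rfl
    have h2 : (R.iter 0).act (zt a t) = zt a t := f2 _
    rw [h1, h2, pow_one, mul_div_cancel₀ _ hr.ne']
  | succ n ih =>
    intro hyp
    obtain ⟨c, κ, ε, hκ, hε, h⟩ := ih (fun j hj => hyp j (by omega))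
    set m := localDeg (R.iter n) (zt a r) with hm
    have hxn : (R.iter n).act (zt a r) = zt c κ := by
      rw [h r le_rfl (by linarith), div_self hr.ne', one_pow, mul_one]
    have hroot : ∀ b : K, R.Q.eval b = 0 → κ < ‖b - c‖ := by
      intro b hb
      by_contra hcon
      push Not at hcon
      apply hyp n (by omega) b κ hb hκ
      rw [hxn, z1 c b κ κ hκ hκ]
      exact ⟨rfl, by rw [norm_sub_rev]; exact hcon⟩
    have hQ : R.Q ≠ 0 := by
      intro h0
      have := hroot c (by rw [h0]; simp)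
      rw [sub_self, norm_zero] at this
      linarith
    obtain ⟨T, hT, hTr⟩ : ∃ T, κ < T ∧ ∀ w : K, R.Q.eval w = 0 → T ≤ ‖w - c‖ := by
      by_cases hne : R.Q.roots.toFinset.Nonempty
      · obtain ⟨w0, hw0, hmin⟩ := Finset.exists_min_image _ (fun w : K => ‖w - c‖) hne
        rw [Multiset.mem_toFinset, mem_roots hQ] at hw0
        refine ⟨‖w0 - c‖, hroot w0 hw0, ?_⟩
        intro w hw
        apply hmin
        rw [Multiset.mem_toFinset, mem_roots hQ]
        exact hw
      · refine ⟨κ + 1, by linarith, ?_⟩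
        intro w hw
        exfalso
        apply hne
        refine ⟨w, ?_⟩
        rw [Multiset.mem_toFinset, mem_roots hQ]
        exact hw
    obtain ⟨c', ψ, o1, o2, o3⟩ := hO K R c T (hκ.trans hT) hTr
    obtain ⟨ε1, hε1, o4⟩ := o3 κ hκ hT
    set e := localDeg R (zt c κ) with he
    have hψ : ∀ t', κ ≤ t' → t' < κ + ε1 → t' < T → ψ t' = ψ κ * (t' / κ) ^ e := by
      intro t' h1 h2 h3
      obtain ⟨-, p1, p2⟩ := o2 κ t' hκ h1 h3
      rw [o4 t' h1 h2] at p2
      exact le_antisymm p2 p1
    have hcont : ContinuousAt (fun t : ℝ => κ * (t / r) ^ m) r := by fun_prop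
    have hval : (fun t : ℝ => κ * (t / r) ^ m) r = κ := by
      simp [div_self hr.ne']
    have hlt : (fun t : ℝ => κ * (t / r) ^ m) r < min (κ + ε1) T := by
      rw [hval]; exact lt_min (by linarith) hT
    have hev := hcont.eventually_lt continuousAt_const hlt
    rw [Metric.eventually_nhds_iff] at hev
    obtain ⟨δ, hδ, hev⟩ := hev
    refine ⟨c', ψ κ, min ε δ, (o1 κ hκ hT).1, lt_min hε hδ, ?_⟩
    intro t ht1 ht2
    have ht3 : t < r + ε := by have := min_le_left ε δ; linarith
    have ht4 : t < r + δ := by have := min_le_right ε δ; linarith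
    have h5 : κ * (t / r) ^ m < min (κ + ε1) T := by
      apply hev
      rw [Real.dist_eq, abs_of_nonneg (by linarith)]
      linarith
    have h6 : 1 ≤ t / r := by rwa [le_div_iff₀ hr, one_mul]
    have h7 : κ ≤ κ * (t / r) ^ m := le_mul_of_one_le_right hκ.le (one_le_pow₀ h6)
    have h8 : (R.iter (n + 1)).act (zt a t) = R.act ((R.iter n).act (zt a t)) := f1 R (R.iter n) _
    have h9 : localDeg (R.iter (n + 1)) (zt a r) = e * m := by
      have h10 := hC K R (R.iter n) (gauss a r hr) hHK
      rw [← hgr, hxn] at h10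
      exact h10
    have h11 : 0 < κ * (t / r) ^ m := lt_of_lt_of_le hκ h7
    rw [h8, h t ht1 ht3, (o1 _ h11 (h5.trans_le (min_le_right _ _))).2,
      hψ _ h7 (h5.trans_le (min_le_left _ _)) (h5.trans_le (min_le_right _ _)), h9]
    congr 1
    rw [mul_div_cancel_left₀ _ hκ.ne', ← pow_mul, mul_comm m e]

end Pool.Agent.W405.BE.Up
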